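import Pool.Agent.Lib_helper31.GC34.Defs2

/-!
# Block BND
-/

open scoped BigOperators ComplexOrder Kronecker MatrixOrder Matrix.Norms.L2Operator
open MeasureTheory Set Matrix

namespace Pool.Agent.Lib_helper14.GC34

open Pool.Agent.GC34 Pool.Agent.RC

variable {ι κ : Type} [Fintype ι] [DecidableEq ι] [Fintype κ] [DecidableEq κ]

/-- euclidean norm of a vector -/
noncomputable def nv (x : ι → ℂ) : ℝ := ‖(WithLp.toLp 2 x : EuclideanSpace ℂ ι)‖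

theorem nv_nonneg (x : ι → ℂ) : 0 ≤ nv x := norm_nonneg _

theorem nv_mulVec (Y : Matrix ι ι ℂ) (x : ι → ℂ) : nv (Y *ᵥ x) ≤ ‖Y‖ * nv x :=
  Matrix.l2_opNorm_mulVec Y (WithLp.toLp 2 x)

theorem norm_dot_le (x y : ι → ℂ) : ‖star x ⬝ᵥ y‖ ≤ nv x * nv y := by
  have h := norm_inner_le_norm (𝕜 := ℂ) (WithLp.toLp 2 x : EuclideanSpace ℂ ι)
    (WithLp.toLp 2 y : EuclideanSpace ℂ ι)
  rw [EuclideanSpace.inner_eq_star_dotProduct] at h
  rw [dotProduct_comm]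
  exact h

theorem re_dot_self (x : ι → ℂ) : (star x ⬝ᵥ x).re = nv x ^ 2 := by
  have h := inner_self_eq_norm_sq (𝕜 := ℂ) (WithLp.toLp 2 x : EuclideanSpace ℂ ι)
  rw [EuclideanSpace.inner_eq_star_dotProduct] at h
  rw [dotProduct_comm]
  exact h

theorem im_dot_self (x : ι → ℂ) : (star x ⬝ᵥ x).im = 0 := by
  have h := inner_self_im (𝕜 := ℂ) (WithLp.toLp 2 x : EuclideanSpace ℂ ι)
  rw [EuclideanSpace.inner_eq_star_dotProduct] at h
  rw [dotProduct_comm]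
  exact h

theorem norm_qf_le (Y : Matrix ι ι ℂ) (v : ι → ℂ) : ‖star v ⬝ᵥ (Y *ᵥ v)‖ ≤ ‖Y‖ * nv v ^ 2 := by
  refine (norm_dot_le v (Y *ᵥ v)).trans ?_
  have := mul_le_mul_of_nonneg_left (nv_mulVec Y v) (nv_nonneg v)
  calc nv v * nv (Y *ᵥ v) ≤ nv v * (‖Y‖ * nv v) := this
    _ = _ := by ring

/-- resolvent bound from the numerical range -/
theorem norm_inv_le {N : Matrix ι ι ℂ} {c : ℝ} (hc : 0 < c)
    (h : ∀ w : ι → ℂ, c * nv w ^ 2 ≤ (star w ⬝ᵥ (N *ᵥ w)).re) :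
    N * N⁻¹ = 1 ∧ N⁻¹ * N = 1 ∧ ‖N⁻¹‖ ≤ 1 / c := by
  have hinj : Function.Injective N.mulVec := by
    intro x y hxy
    have h1 : N *ᵥ (x - y) = 0 := by rw [Matrix.mulVec_sub, hxy, sub_self]
    have h2 := h (x - y)
    rw [h1] at h2
    simp only [dotProduct_zero, Complex.zero_re] at h2
    have h3 : nv (x - y) ^ 2 ≤ 0 := by
      by_contra h4
      push_neg at h4
      nlinarith
    have h4 : nv (x - y) = 0 := by
      have := sq_nonneg (nv (x - y))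
      have h5 : nv (x - y) ^ 2 = 0 := le_antisymm h3 this
      exact pow_eq_zero_iff (two_ne_zero) |>.1 h5
    unfold nv at h4
    rw [norm_eq_zero] at h4
    have h5 : x - y = 0 := by
      have := congrArg (WithLp.ofLp) h4
      simpa using this
    exact sub_eq_zero.1 h5
  have hunit : IsUnit N := Matrix.mulVec_injective_iff_isUnit.1 hinj
  have hdet : IsUnit N.det := (Matrix.isUnit_iff_isUnit_det N).1 hunit
  have e1 := Matrix.mul_nonsing_inv N hdet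
  have e2 := Matrix.nonsing_inv_mul N hdet
  refine ⟨e1, e2, ?_⟩
  rw [Matrix.l2_opNorm_def]
  apply ContinuousLinearMap.opNorm_le_bound _ (by positivity)
  intro y
  set x : ι → ℂ := N⁻¹ *ᵥ (WithLp.ofLp y) with hx
  have hNx : N *ᵥ x = WithLp.ofLp y := by
    rw [hx, Matrix.mulVec_mulVec, e1, Matrix.one_mulVec]
  have h1 := h x
  rw [hNx] at h1
  have h2 : (star x ⬝ᵥ WithLp.ofLp y).re ≤ nv x * ‖y‖ := by
    refine (Complex.re_le_norm _).trans ?_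
    exact norm_dot_le x (WithLp.ofLp y)
  have h3 : c * nv x ≤ ‖y‖ := by
    rcases eq_or_lt_of_le (nv_nonneg x) with h0 | h0
    · rw [← h0, mul_zero]; exact norm_nonneg _
    · have h4 : nv x * (c * nv x) ≤ nv x * ‖y‖ := by nlinarith
      exact le_of_mul_le_mul_left h4 h0
  have h4 : nv x ≤ 1 / c * ‖y‖ := by
    rw [one_div, ← div_eq_inv_mul, le_div_iff₀ hc]
    linarith
  exact h4

/-- quadratic form of a Hermitian matrix is real -/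
theorem im_qf {Y : Matrix ι ι ℂ} (hY : Y.IsHermitian) (w : ι → ℂ) :
    (star w ⬝ᵥ (Y *ᵥ w)).im = 0 := by
  have h : star (star w ⬝ᵥ (Y *ᵥ w)) = star w ⬝ᵥ (Y *ᵥ w) := by
    rw [← Matrix.star_dotProduct, Matrix.star_mulVec, hY.eq, ← Matrix.dotProduct_mulVec]
  have h2 := congrArg Complex.im h
  simp only [RCLike.star_def, Complex.conj_im] at h2
  linarith

/-- norm of the scaling matrix -/
theorem norm_SZ_le (Z : Finset ι) {t : ℝ} (ht0 : 0 < t) (ht1 : t ≤ 1) : ‖SZ Z t‖ ≤ 1 := by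
  unfold SZ
  rw [Matrix.l2_opNorm_diagonal]
  refine (pi_norm_le_iff_of_nonneg zero_le_one).2 fun i => ?_
  split_ifs
  · rw [Complex.norm_real, Real.norm_eq_abs, abs_of_pos ht0]; exact ht1
  · simp

theorem herm_SZ (Z : Finset ι) (t : ℝ) : (SZ Z t)ᴴ = SZ Z t := by
  unfold SZ
  rw [Matrix.diagonal_conjTranspose]
  congr 1
  funext i
  simp only [Pi.star_apply]
  split_ifs <;> simp

theorem norm_low_le (Z : Finset ι) {t : ℝ} (ht0 : 0 < t) (ht1 : t ≤ 1) (X : Matrix ι ι ℂ) :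
    ‖low Z t X‖ ≤ ‖X‖ := by
  unfold low
  have h := norm_SZ_le Z ht0 ht1
  calc ‖SZ Z t * X * SZ Z t‖ ≤ ‖SZ Z t * X‖ * ‖SZ Z t‖ := norm_mul_le _ _
    _ ≤ ‖SZ Z t * X‖ * 1 := by gcongr
    _ = ‖SZ Z t * X‖ := mul_one _
    _ ≤ ‖SZ Z t‖ * ‖X‖ := norm_mul_le _ _
    _ ≤ 1 * ‖X‖ := by gcongr
    _ = ‖X‖ := one_mul _

/-- quadratic form of `low` -/
theorem qf_low (Z : Finset ι) (t : ℝ) (X : Matrix ι ι ℂ) (w : ι → ℂ) :
    star w ⬝ᵥ (low Z t X *ᵥ w) = star (SZ Z t *ᵥ w) ⬝ᵥ (X *ᵥ (SZ Z t *ᵥ w)) := by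
  unfold low
  rw [← Matrix.mulVec_mulVec, ← Matrix.mulVec_mulVec, Matrix.star_mulVec, herm_SZ,
    ← Matrix.dotProduct_mulVec]

theorem low_mulVec_e0 {n : ℕ} (t : ℝ) (A : Matrix (Fin (n + 1)) (Fin (n + 1)) ℂ) :
    low {0} t A *ᵥ e0 = (t : ℂ) • (SZ {0} t *ᵥ (A *ᵥ e0)) := by
  unfold low
  rw [← Matrix.mulVec_mulVec, ← Matrix.mulVec_mulVec]
  have h : SZ ({0} : Finset (Fin (n + 1))) t *ᵥ e0 = (t : ℂ) • (e0 : Fin (n + 1) → ℂ) := by
    unfold SZ e0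
    rw [Matrix.diagonal_mulVec_single]
    funext i
    by_cases hi : i = 0
    · subst hi; simp
    · simp [Pi.single_apply, hi]
  rw [h, Matrix.mulVec_smul, Matrix.mulVec_smul]

theorem nv_smul (c : ℂ) (x : ι → ℂ) : nv (c • x) = ‖c‖ * nv x := by
  unfold nv
  rw [WithLp.toLp_smul, norm_smul]

theorem nv_e0 {n : ℕ} : nv (e0 : Fin (n + 1) → ℂ) = 1 := by
  unfold nv e0
  have := EuclideanSpace.norm_single (𝕜 := ℂ) (0 : Fin (n + 1)) (1 : ℂ)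
  simpa using this

theorem nv_low_e0 {n : ℕ} {t : ℝ} (ht0 : 0 < t) (ht1 : t ≤ 1)
    (A : Matrix (Fin (n + 1)) (Fin (n + 1)) ℂ) :
    nv (low {0} t A *ᵥ e0) ≤ t * ‖A‖ := by
  rw [low_mulVec_e0, nv_smul, Complex.norm_real, Real.norm_eq_abs, abs_of_pos ht0]
  have h1 := nv_mulVec (SZ ({0} : Finset (Fin (n + 1))) t) (A *ᵥ e0)
  have h2 := nv_mulVec A (e0 : Fin (n + 1) → ℂ)
  rw [nv_e0, mul_one] at h2
  have h3 := norm_SZ_le ({0} : Finset (Fin (n + 1))) ht0 ht1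
  have h4 : ‖SZ ({0} : Finset (Fin (n + 1))) t‖ * nv (A *ᵥ e0) ≤ 1 * ‖A‖ :=
    mul_le_mul h3 h2 (nv_nonneg _) zero_le_one
  have h5 : nv (SZ ({0} : Finset (Fin (n + 1))) t *ᵥ (A *ᵥ e0)) ≤ ‖A‖ := by linarith
  exact mul_le_mul_of_nonneg_left h5 ht0.le

/-- the numerical range of `N` -/
theorem range_N {A B : Matrix ι ι ℂ} {r lam : ℝ} (hr : 1 < r) (hV : Strict A (r • B))
    (hl : |lam| * r < 1) (Z : Finset ι) (t : ℝ) {σ : ℝ} (hσ : 0 < σ) {z : ℂ} (hz : ‖z‖ ≤ r)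
    (w : ι → ℂ) :
    (σ * (1 - |lam| * r)) * nv w ^ 2 ≤
      (star w ⬝ᵥ (((low Z t A + σ • (1 : Matrix ι ι ℂ)) +
        z • (low Z t B + (lam * σ) • (1 : Matrix ι ι ℂ))) *ᵥ w)).re := by
  have hB : B.IsHermitian := by
    have h := (hV.add.isHermitian).sub (hV.sub.isHermitian)
    have h2 : A + r • B - (A - r • B) = (2 * r) • B := by
      rw [mul_smul, two_smul]; abel
    rw [h2] at h
    have h3 : B = ((2 * r)⁻¹ : ℝ) • ((2 * r) • B) := by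
      rw [smul_smul, inv_mul_cancel₀ (by positivity), one_smul]
    rw [h3]
    exact h.smul (by simp [IsSelfAdjoint])
  set u : ι → ℂ := SZ Z t *ᵥ w with hu
  have e1 : star w ⬝ᵥ (((low Z t A + σ • (1 : Matrix ι ι ℂ)) +
        z • (low Z t B + (lam * σ) • (1 : Matrix ι ι ℂ))) *ᵥ w) =
      star u ⬝ᵥ (A *ᵥ u) + z * (star u ⬝ᵥ (B *ᵥ u)) +
        (σ : ℂ) * (1 + lam * z) * (star w ⬝ᵥ w) := by
    rw [Matrix.add_mulVec, Matrix.add_mulVec, Matrix.smul_mulVec z, Matrix.add_mulVec,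
      dotProduct_add, dotProduct_add, dotProduct_smul, dotProduct_add, qf_low, qf_low,
      Matrix.smul_mulVec, Matrix.smul_mulVec, Matrix.one_mulVec, dotProduct_smul,
      dotProduct_smul, ← hu]
    simp only [smul_eq_mul, Complex.real_smul, Complex.ofReal_mul]
    ring
  rw [e1]
  have hBi := im_qf hB u
  have hPa := (hV.add.posSemidef.dotProduct_mulVec_nonneg u)
  have hPs := (hV.sub.posSemidef.dotProduct_mulVec_nonneg u)
  rw [Matrix.add_mulVec, dotProduct_add, Matrix.smul_mulVec, dotProduct_smul] at hPa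
  rw [Matrix.sub_mulVec, dotProduct_sub, Matrix.smul_mulVec, dotProduct_smul] at hPs
  have hPa' := (Complex.nonneg_iff.1 hPa).1
  have hPs' := (Complex.nonneg_iff.1 hPs).1
  simp only [Complex.add_re, Complex.sub_re, Complex.real_smul, Complex.mul_re,
    Complex.ofReal_re, Complex.ofReal_im, zero_mul, sub_zero] at hPa' hPs'
  have hzr : |z.re| ≤ r := (Complex.abs_re_le_norm z).trans hz
  have hwi := im_dot_self w
  have hwr := re_dot_self w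
  set a := (star u ⬝ᵥ (A *ᵥ u)).re with ha
  set b := (star u ⬝ᵥ (B *ᵥ u)).re with hb
  simp only [Complex.add_re, Complex.mul_re, Complex.mul_im, Complex.add_im, Complex.one_re,
    Complex.one_im, Complex.ofReal_re, Complex.ofReal_im, hBi, hwi, hwr, mul_zero, sub_zero,
    zero_mul, add_zero, zero_add]
  rw [← ha, ← hb]
  have h1 : 0 ≤ a + z.re * b := by
    have h2 : |z.re * b| ≤ r * |b| := by
      rw [abs_mul]; gcongr
    have h3 : r * |b| ≤ a := by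
      rcases le_or_gt 0 b with hb0 | hb0
      · rw [abs_of_nonneg hb0]; linarith
      · rw [abs_of_neg hb0]; linarith
    have h4 := neg_abs_le (z.re * b)
    linarith
  have h2 : 1 - |lam| * r ≤ 1 + lam * z.re := by
    have h3 : |lam * z.re| ≤ |lam| * r := by
      rw [abs_mul]; gcongr
    have h4 := neg_abs_le (lam * z.re)
    linarith
  have h3 : σ * (1 - |lam| * r) * nv w ^ 2 ≤ σ * (1 + lam * z.re) * nv w ^ 2 := by
    gcongr
  linarith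

/-- the algebraic identity behind the decay -/
theorem res_identity {X N : Matrix ι ι ℂ} {s : ℂ} {σ : ℝ} (hσ : 0 < σ)
    (hN : N = X + ((σ : ℂ) * s) • (1 : Matrix ι ι ℂ)) (h1 : N * N⁻¹ = 1) (h2 : N⁻¹ * N = 1) :
    s ^ 2 • N⁻¹ - (s / (σ : ℂ)) • (1 : Matrix ι ι ℂ) + (1 / (σ : ℂ) ^ 2) • X =
      (1 / (σ : ℂ) ^ 2) • (X * N⁻¹ * X) := by
  have hσ' : (σ : ℂ) ≠ 0 := by exact_mod_cast hσ.ne'
  have hX : X = N - ((σ : ℂ) * s) • (1 : Matrix ι ι ℂ) := by rw [hN]; abel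
  have e1 : X * N⁻¹ * X = N - (2 * ((σ : ℂ) * s)) • (1 : Matrix ι ι ℂ) +
      ((σ : ℂ) * s) ^ 2 • N⁻¹ := by
    have e2 : X * N⁻¹ = 1 - ((σ : ℂ) * s) • N⁻¹ := by
      rw [hX, Matrix.sub_mul, h1, Matrix.smul_mul, Matrix.one_mul]
    rw [e2]
    conv_lhs => rw [hX]
    rw [Matrix.sub_mul, Matrix.one_mul, Matrix.smul_mul, Matrix.mul_sub, h2, Matrix.mul_smul,
      Matrix.mul_one, smul_sub, smul_smul, two_mul, add_smul, sq]
    abel
  rw [e1, smul_add, smul_sub, smul_smul, smul_smul]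
  have e3 : (1 / (σ : ℂ) ^ 2) * ((σ : ℂ) * s) ^ 2 = s ^ 2 := by field_simp
  have e4 : (1 / (σ : ℂ) ^ 2) * (2 * ((σ : ℂ) * s)) = 2 * (s / σ) := by field_simp
  rw [e3, e4]
  conv_lhs => rw [hX]
  rw [smul_sub, smul_smul]
  have e5 : (1 / (σ : ℂ) ^ 2) * ((σ : ℂ) * s) = s / σ := by field_simp
  rw [e5, two_mul, add_smul]
  abel

theorem bnd {p : ℝ} (h3 : 3 < p) (h4 : p < 4) {n : ℕ}
    {A B : Matrix (Fin (n + 1)) (Fin (n + 1)) ℂ}
    {r lam : ℝ} (hr : 1 < r) (hV : Strict A (r • B)) (hl : |lam| * r < 1) :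
    ∃ K : ℝ, ∀ t ∈ Ioc (0 : ℝ) 1, ∀ σ : ℝ, 0 < σ → ∀ z : ℂ, ‖z‖ ≤ r →
      ‖Fz p (low {0} t A) (low {0} t B) lam (low {0} t A *ᵥ e0) σ z‖ ≤
        K * t ^ 2 * min (1 / σ ^ 2) (1 / σ ^ 3) := by
  have hδ : 0 < 1 - |lam| * r := by linarith
  set δ := 1 - |lam| * r with hδdef
  set b := ‖A‖ + r * ‖B‖ with hb
  have hb0 : 0 ≤ b := by positivity
  refine ⟨8 * (b * (b / δ + (1 + 2 / δ))) * ‖A‖ ^ 2, ?_⟩
  intro t ht σ hσ z hz
  have ht0 := ht.1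
  have ht1 := ht.2
  have hσ' : (σ : ℂ) ≠ 0 := by exact_mod_cast hσ.ne'
  set At := low ({0} : Finset (Fin (n + 1))) t A with hAt
  set Bt := low ({0} : Finset (Fin (n + 1))) t B with hBt
  set v := At *ᵥ (e0 : Fin (n + 1) → ℂ) with hv
  set N := (At + σ • (1 : Matrix (Fin (n + 1)) (Fin (n + 1)) ℂ)) +
    z • (Bt + (lam * σ) • (1 : Matrix (Fin (n + 1)) (Fin (n + 1)) ℂ)) with hN
  set X := At + z • Bt with hX
  set s : ℂ := 1 + lam * z with hs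
  have hrange : ∀ w, σ * δ * nv w ^ 2 ≤ (star w ⬝ᵥ (N *ᵥ w)).re := fun w =>
    range_N hr hV hl {0} t hσ hz w
  obtain ⟨e1, e2, hinv⟩ := norm_inv_le (mul_pos hσ hδ) hrange
  have hNX : N = X + ((σ : ℂ) * s) • (1 : Matrix (Fin (n + 1)) (Fin (n + 1)) ℂ) := by
    rw [hN, hX, hs]
    ext i j
    simp only [Matrix.add_apply, Matrix.smul_apply, Complex.real_smul, smul_eq_mul,
      Complex.ofReal_mul]
    ring
  have hid := res_identity hσ hNX e1 e2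
  -- size of `s`
  have hslow : 0 < s.re := by
    have h3 : |lam * z.re| ≤ |lam| * r := by
      rw [abs_mul]
      have := (Complex.abs_re_le_norm z).trans hz
      gcongr
    have h4 := neg_abs_le (lam * z.re)
    have h5 : s.re = 1 + lam * z.re := by
      rw [hs]; simp
    rw [h5]; linarith
  have hs0 : s ≠ 0 := by
    intro h; rw [h] at hslow; simp at hslow
  have hs2 : ‖s‖ ≤ 2 := by
    have h1 : ‖(lam : ℂ) * z‖ ≤ |lam| * r := by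
      rw [norm_mul, Complex.norm_real, Real.norm_eq_abs]; gcongr
    have h2 : ‖s‖ ≤ ‖(1 : ℂ)‖ + ‖(lam : ℂ) * z‖ := norm_add_le _ _
    rw [norm_one] at h2
    linarith
  -- the main identity
  have c1 : s ^ ((p : ℂ) + 1) = s ^ ((p : ℂ) - 1) * s ^ 2 := by
    have h : (p : ℂ) + 1 = ((p : ℂ) - 1) + 2 := by ring
    rw [h, Complex.cpow_add _ _ hs0]
    congr 1
    exact_mod_cast Complex.cpow_natCast s 2
  have c2 : s ^ (p : ℂ) = s ^ ((p : ℂ) - 1) * s := by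
    have h : (p : ℂ) = ((p : ℂ) - 1) + 1 := by ring
    conv_lhs => rw [h]
    rw [Complex.cpow_add _ _ hs0, Complex.cpow_one]
  have hF : Fz p At Bt lam v σ z =
      s ^ ((p : ℂ) - 1) * ((1 / (σ : ℂ) ^ 2) * (star v ⬝ᵥ ((X * N⁻¹ * X) *ᵥ v))) := by
    have h1 : (1 / (σ : ℂ) ^ 2) * (star v ⬝ᵥ ((X * N⁻¹ * X) *ᵥ v)) =
        star v ⬝ᵥ (((1 / (σ : ℂ) ^ 2) • (X * N⁻¹ * X)) *ᵥ v) := by
      rw [Matrix.smul_mulVec, dotProduct_smul, smul_eq_mul]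
    rw [h1, ← hid, Matrix.add_mulVec, Matrix.sub_mulVec, Matrix.smul_mulVec,
      Matrix.smul_mulVec, Matrix.smul_mulVec, Matrix.one_mulVec, dotProduct_add,
      dotProduct_sub, dotProduct_smul, dotProduct_smul, dotProduct_smul]
    unfold Fz
    rw [← hs, c1, c2, ← hN, ← hX]
    simp only [smul_eq_mul]
    ring
  rw [hF, norm_mul, norm_mul]
  have n1 : ‖s ^ ((p : ℂ) - 1)‖ ≤ 8 := by
    have h : ((p : ℂ) - 1) = ((p - 1 : ℝ) : ℂ) := by push_cast; ring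
    rw [h, Complex.norm_cpow_real]
    calc ‖s‖ ^ (p - 1) ≤ 2 ^ (p - 1) :=
          Real.rpow_le_rpow (norm_nonneg _) hs2 (by linarith)
      _ ≤ 2 ^ (3 : ℝ) := Real.rpow_le_rpow_of_exponent_le (by norm_num) (by linarith)
      _ = 8 := by norm_num
  have n2 : ‖(1 / (σ : ℂ) ^ 2)‖ = 1 / σ ^ 2 := by
    rw [norm_div, norm_one, norm_pow, Complex.norm_real, Real.norm_eq_abs, abs_of_pos hσ]
  have nX : ‖X‖ ≤ b := by
    have h1 := norm_low_le ({0} : Finset (Fin (n + 1))) ht0 ht1 A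
    have h2 := norm_low_le ({0} : Finset (Fin (n + 1))) ht0 ht1 B
    calc ‖X‖ ≤ ‖At‖ + ‖z • Bt‖ := norm_add_le _ _
      _ = ‖At‖ + ‖z‖ * ‖Bt‖ := by rw [norm_smul]
      _ ≤ ‖A‖ + r * ‖B‖ := by gcongr
  have nXN : ‖X * N⁻¹‖ ≤ 1 + 2 / δ := by
    have h1 : X * N⁻¹ = 1 - ((σ : ℂ) * s) • N⁻¹ := by
      have hX' : X = N - ((σ : ℂ) * s) • (1 : Matrix (Fin (n + 1)) (Fin (n + 1)) ℂ) := by
        rw [hNX]; abel
      rw [hX', Matrix.sub_mul, e1, Matrix.smul_mul, Matrix.one_mul]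
    rw [h1]
    have h2 : ‖(1 : Matrix (Fin (n + 1)) (Fin (n + 1)) ℂ)‖ ≤ 1 := by
      rw [norm_one]
    have h3 : ‖((σ : ℂ) * s) • N⁻¹‖ ≤ 2 / δ := by
      rw [norm_smul, norm_mul, Complex.norm_real, Real.norm_eq_abs, abs_of_pos hσ]
      calc σ * ‖s‖ * ‖N⁻¹‖ ≤ σ * 2 * (1 / (σ * δ)) := by gcongr
        _ = 2 / δ := by field_simp
    exact (norm_sub_le _ _).trans (by linarith)
  have n3 : ‖X * N⁻¹ * X‖ ≤ (1 + 2 / δ) * b := by
    refine (norm_mul_le _ _).trans ?_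
    gcongr
  have n4 : ‖X * N⁻¹ * X‖ ≤ b * (1 / (σ * δ)) * b := by
    refine (norm_mul_le _ _).trans ?_
    have : ‖X * N⁻¹‖ ≤ b * (1 / (σ * δ)) := by
      refine (norm_mul_le _ _).trans ?_
      gcongr
    gcongr
  have nq := norm_qf_le (X * N⁻¹ * X) v
  have nvb : nv v ^ 2 ≤ t ^ 2 * ‖A‖ ^ 2 := by
    have h := nv_low_e0 ht0 ht1 A
    have h0 := nv_nonneg v
    calc nv v ^ 2 ≤ (t * ‖A‖) ^ 2 := by gcongr
      _ = _ := by ring
  have hpos1 : 0 ≤ b / δ := by positivity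
  have hpos2 : 0 ≤ 1 + 2 / δ := by positivity
  have m1 : ‖X * N⁻¹ * X‖ ≤ b * (b / δ + (1 + 2 / δ)) := by
    nlinarith
  have m2 : ‖X * N⁻¹ * X‖ ≤ b * (b / δ + (1 + 2 / δ)) * (1 / σ) := by
    have h5 : b * (1 / (σ * δ)) * b = b * (b / δ) * (1 / σ) := by field_simp
    rw [h5] at n4
    have h6 : 0 ≤ b * (1 + 2 / δ) * (1 / σ) := by positivity
    nlinarith
  have m3 : ‖X * N⁻¹ * X‖ * (1 / σ ^ 2) ≤
      b * (b / δ + (1 + 2 / δ)) * min (1 / σ ^ 2) (1 / σ ^ 3) := by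
    have hc : 0 ≤ b * (b / δ + (1 + 2 / δ)) := by positivity
    rw [mul_min_of_nonneg _ _ hc]
    refine le_min ?_ ?_
    · have : 0 ≤ 1 / σ ^ 2 := by positivity
      exact mul_le_mul_of_nonneg_right m1 this
    · have : 0 ≤ 1 / σ ^ 2 := by positivity
      have h7 := mul_le_mul_of_nonneg_right m2 this
      refine h7.trans (le_of_eq ?_)
      field_simp
  have hmin : 0 ≤ min (1 / σ ^ 2) (1 / σ ^ 3) := by positivity
  rw [n2]
  calc ‖s ^ ((p : ℂ) - 1)‖ * (1 / σ ^ 2 * ‖star v ⬝ᵥ ((X * N⁻¹ * X) *ᵥ v)‖)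
      ≤ 8 * (1 / σ ^ 2 * (‖X * N⁻¹ * X‖ * (t ^ 2 * ‖A‖ ^ 2))) := by
        have h8 : ‖star v ⬝ᵥ ((X * N⁻¹ * X) *ᵥ v)‖ ≤ ‖X * N⁻¹ * X‖ * (t ^ 2 * ‖A‖ ^ 2) :=
          nq.trans (by gcongr)
        gcongr
    _ = 8 * (t ^ 2 * ‖A‖ ^ 2) * (‖X * N⁻¹ * X‖ * (1 / σ ^ 2)) := by ring
    _ ≤ 8 * (t ^ 2 * ‖A‖ ^ 2) *
          (b * (b / δ + (1 + 2 / δ)) * min (1 / σ ^ 2) (1 / σ ^ 3)) := by gcongr
    _ = _ := by ring

end Pool.Agent.Lib_helper14.GC34
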