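import Mathlib

/-!
# Block CONG: the extreme generalised eigenvector of a strict pair, moved to `e₀` by a unitary
-/

open scoped BigOperators ComplexOrder Kronecker MatrixOrder
open Matrix

namespace Pool.Agent.GC34c

variable {ι κ : Type} [Fintype ι] [DecidableEq ι] [Fintype κ] [DecidableEq κ]

theorem exists_diag {M : Matrix ι ι ℂ} (h : M.IsHermitian) :
    ∃ U : Matrix ι ι ℂ, U * Uᴴ = 1 ∧ Uᴴ * U = 1 ∧
      Uᴴ * M * U = Matrix.diagonal (fun i => (h.eigenvalues i : ℂ)) := by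
  refine ⟨(h.eigenvectorUnitary : Matrix ι ι ℂ), ?_, ?_, ?_⟩
  · exact (Matrix.mem_unitaryGroup_iff).1 h.eigenvectorUnitary.2
  · exact (Matrix.mem_unitaryGroup_iff').1 h.eigenvectorUnitary.2
  · have := h.conjStarAlgAut_star_eigenvectorUnitary
    rw [Unitary.conjStarAlgAut_star_apply] at this
    rw [← Matrix.star_eq_conjTranspose, this]
    rfl

/-- a unit vector is the first column of a unitary -/
theorem exists_unitary {n : ℕ} (hn : Fintype.card ι = n + 1) (u : ι → ℂ) (hu : star u ⬝ᵥ u = 1) :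
    ∃ U : Matrix ι (Fin (n + 1)) ℂ, Uᴴ * U = 1 ∧ U * Uᴴ = 1 ∧ ∀ i, U i 0 = u i := by
  classical
  have hcard : Module.finrank ℂ (EuclideanSpace ℂ ι) = Fintype.card (Fin (n + 1)) := by
    simp [hn]
  let u' : EuclideanSpace ℂ ι := WithLp.toLp 2 u
  have hu' : ‖u'‖ = 1 := by
    have h1 : (inner ℂ u' u' : ℂ) = 1 := by
      rw [EuclideanSpace.inner_eq_star_dotProduct]
      simpa [u', dotProduct_comm] using hu
    have h2 := inner_self_eq_norm_sq (𝕜 := ℂ) u'
    rw [h1] at h2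
    have h3 : (‖u'‖ : ℝ) ^ 2 = 1 := by
      rw [← h2]
      simp
    nlinarith [norm_nonneg u', sq_nonneg (‖u'‖ - 1)]
  have horth : Orthonormal ℂ (({0} : Set (Fin (n + 1))).restrict fun _ => u') := by
    constructor
    · intro i
      show ‖u'‖ = 1
      exact hu'
    · intro i j hij
      exact absurd (Subsingleton.elim i j) hij
  obtain ⟨b, hb⟩ := horth.exists_orthonormalBasis_extension_of_card_eq hcard
  have hb0 : b 0 = u' := hb 0 (by simp)
  let U : Matrix ι (Fin (n + 1)) ℂ := fun i j => b j i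
  have hU : Uᴴ * U = 1 := by
    ext j k
    have h := orthonormal_iff_ite.1 b.orthonormal j k
    rw [EuclideanSpace.inner_eq_star_dotProduct] at h
    rw [Matrix.mul_apply, Matrix.one_apply]
    simp only [Matrix.conjTranspose_apply]
    rw [← h]
    simp only [dotProduct, Pi.star_apply]
    apply Finset.sum_congr rfl
    intro i _
    simp only [U]
    rw [mul_comm]
  have hU' : U * Uᴴ = 1 := by
    have e : ι ≃ Fin (n + 1) := Fintype.equivFinOfCardEq hn
    let U2 : Matrix (Fin (n + 1)) (Fin (n + 1)) ℂ := U.submatrix e.symm id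
    have h1 : U2ᴴ * U2 = 1 := by
      ext j k
      have := congrFun (congrFun hU j) k
      rw [← this, Matrix.mul_apply, Matrix.mul_apply]
      simp only [U2, Matrix.conjTranspose_apply, Matrix.submatrix_apply, id]
      exact e.symm.sum_comp (fun i => star (U i j) * U i k)
    have h2 : U2 * U2ᴴ = 1 := mul_eq_one_comm.1 h1
    ext i k
    have := congrFun (congrFun h2 (e i)) (e k)
    rw [Matrix.mul_apply] at this ⊢
    simp only [U2, Matrix.conjTranspose_apply, Matrix.submatrix_apply, id,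
      Equiv.symm_apply_apply] at this ⊢
    rw [this, Matrix.one_apply, Matrix.one_apply]
    simp [e.injective.eq_iff]
  exact ⟨U, hU, hU', fun i => by
    show b 0 i = u i
    rw [hb0]⟩

/-- a unit vector extends to an isometry onto its orthogonal complement -/
theorem exists_compl {n : ℕ} (hn : Fintype.card ι = n + 1) (u : ι → ℂ) (hu : star u ⬝ᵥ u = 1) :
    ∃ V : Matrix ι (Fin n) ℂ, Vᴴ * V = 1 ∧ V * Vᴴ = 1 - vecMulVec u (star u) := by
  obtain ⟨U, hU, hU', h0⟩ := exists_unitary hn u hu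
  refine ⟨fun i j => U i j.succ, ?_, ?_⟩
  · ext j k
    have := congrFun (congrFun hU j.succ) k.succ
    rw [Matrix.mul_apply] at this ⊢
    simp only [Matrix.conjTranspose_apply] at this ⊢
    rw [this, Matrix.one_apply, Matrix.one_apply]
    simp
  · ext i k
    have := congrFun (congrFun hU' i) k
    rw [Matrix.mul_apply, Fin.sum_univ_succ] at this
    rw [Matrix.mul_apply, Matrix.sub_apply, vecMulVec_apply, ← this]
    simp only [Matrix.conjTranspose_apply, h0, Pi.star_apply]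
    ring


/-- simultaneous diagonalisation by congruence -/
theorem exists_congr {A B : Matrix ι ι ℂ} (hA : A.PosDef) (hB : B.IsHermitian) :
    ∃ (S Si : Matrix ι ι ℂ) (η : ι → ℝ), S * Si = 1 ∧ Si * S = 1 ∧ A = S * Sᴴ ∧
      B = S * Matrix.diagonal (fun i => (η i : ℂ)) * Sᴴ := by
  obtain ⟨T, hT⟩ : ∃ T : Matrix ι ι ℂ, A = Tᴴ * T := by
    obtain ⟨T, hT⟩ := CStarAlgebra.nonneg_iff_eq_star_mul_self.mp hA.posSemidef.nonneg
    exact ⟨T, hT⟩
  have hdet : IsUnit T.det := by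
    have h1 : A.det ≠ 0 := hA.det_pos.ne'
    rw [hT, Matrix.det_mul] at h1
    exact isUnit_iff_ne_zero.2 (right_ne_zero_of_mul h1)
  have h1 : T * T⁻¹ = 1 := Matrix.mul_nonsing_inv T hdet
  have h2 : T⁻¹ * T = 1 := Matrix.nonsing_inv_mul T hdet
  have h1' : (T⁻¹)ᴴ * Tᴴ = 1 := by
    rw [← Matrix.conjTranspose_mul, h1, Matrix.conjTranspose_one]
  have h2' : Tᴴ * (T⁻¹)ᴴ = 1 := by
    rw [← Matrix.conjTranspose_mul, h2, Matrix.conjTranspose_one]
  have hX : ((T⁻¹)ᴴ * B * T⁻¹).IsHermitian := by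
    have := Matrix.isHermitian_conjTranspose_mul_mul (T⁻¹) hB
    exact this
  obtain ⟨U, hU1, hU2, hU3⟩ := exists_diag hX
  refine ⟨Tᴴ * U, Uᴴ * (T⁻¹)ᴴ, hX.eigenvalues, ?_, ?_, ?_, ?_⟩
  · calc Tᴴ * U * (Uᴴ * (T⁻¹)ᴴ) = Tᴴ * (U * Uᴴ) * (T⁻¹)ᴴ := by noncomm_ring
      _ = 1 := by rw [hU1, mul_one, h2']
  · calc Uᴴ * (T⁻¹)ᴴ * (Tᴴ * U) = Uᴴ * ((T⁻¹)ᴴ * Tᴴ) * U := by noncomm_ring
      _ = 1 := by rw [h1', mul_one, hU2]
  · rw [Matrix.conjTranspose_mul, Matrix.conjTranspose_conjTranspose]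
    calc A = Tᴴ * T := hT
      _ = Tᴴ * (U * Uᴴ) * T := by rw [hU1, mul_one]
      _ = Tᴴ * U * (Uᴴ * T) := by noncomm_ring
  · rw [Matrix.conjTranspose_mul, Matrix.conjTranspose_conjTranspose, ← hU3]
    calc B = (Tᴴ * (T⁻¹)ᴴ) * B * (T⁻¹ * T) := by rw [h2', h2, one_mul, mul_one]
      _ = Tᴴ * (U * Uᴴ) * ((T⁻¹)ᴴ * B * T⁻¹) * (U * Uᴴ) * T := by rw [hU1]; noncomm_ring
      _ = Tᴴ * U * (Uᴴ * ((T⁻¹)ᴴ * B * T⁻¹) * U) * (Uᴴ * T) := by noncomm_ring


theorem posDef_of_strict {A B : Matrix ι ι ℂ} (h1 : (A - B).PosDef) (h2 : (A + B).PosDef) :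
    A.PosDef := by
  have h3 := h1.add h2
  have e : A - B + (A + B) = (2 : ℝ) • A := by
    rw [two_smul]; abel
  rw [e] at h3
  have h4 := h3.smul (show (0 : ℝ) < 1 / 2 by norm_num)
  rwa [smul_smul, show (1 / 2 : ℝ) * 2 = 1 by norm_num, one_smul] at h4

theorem herm_of_strict {A B : Matrix ι ι ℂ} (h1 : (A - B).PosDef) (h2 : (A + B).PosDef) :
    B.IsHermitian := by
  have h3 := h2.1.sub (posDef_of_strict h1 h2).1
  rwa [add_sub_cancel_left] at h3

/-- the minimal generalised eigenvector -/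
theorem exists_min_eig [Nonempty ι] {A B : Matrix ι ι ℂ} (h1 : (A - B).PosDef)
    (h2 : (A + B).PosDef) :
    ∃ (u : ι → ℂ) (lam : ℝ), star u ⬝ᵥ u = 1 ∧ B *ᵥ u = lam • (A *ᵥ u) ∧ |lam| < 1 ∧
      (B - lam • A).PosSemidef := by
  have hA := posDef_of_strict h1 h2
  obtain ⟨S, Si, η, hS1, hS2, hSA, hSB⟩ := exists_congr hA (herm_of_strict h1 h2)
  obtain ⟨i, hi⟩ := Finite.exists_min η
  have hS1' : Sᴴ * Siᴴ = 1 := by rw [← Matrix.conjTranspose_mul, hS2, Matrix.conjTranspose_one]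
  set u₀ : ι → ℂ := Siᴴ *ᵥ Pi.single i 1 with hu₀
  have hAu : A *ᵥ u₀ = S *ᵥ Pi.single i 1 := by
    rw [hu₀, Matrix.mulVec_mulVec, hSA, mul_assoc, hS1', mul_one]
  have hBu : B *ᵥ u₀ = η i • (A *ᵥ u₀) := by
    rw [hAu, hu₀, Matrix.mulVec_mulVec, hSB, mul_assoc, hS1', mul_one, ← Matrix.mulVec_mulVec]
    have : Matrix.diagonal (fun i => (η i : ℂ)) *ᵥ Pi.single i 1 = η i • Pi.single i 1 := by
      ext j
      by_cases hj : j = i
      · subst hj; simp [Matrix.mulVec_diagonal]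
      · simp [Matrix.mulVec_diagonal, hj]
    rw [this, Matrix.mulVec_smul]
  have hu₀ne : u₀ ≠ 0 := by
    intro h0
    have h5 : Sᴴ *ᵥ u₀ = Pi.single i 1 := by
      rw [hu₀, Matrix.mulVec_mulVec, hS1', Matrix.one_mulVec]
    rw [h0, Matrix.mulVec_zero] at h5
    have := congrFun h5 i
    simp at this
  have hpos : 0 < (star u₀ ⬝ᵥ u₀) := Matrix.dotProduct_star_self_pos_iff.2 hu₀ne
  have hre : (star u₀ ⬝ᵥ u₀) = (((star u₀ ⬝ᵥ u₀).re : ℝ) : ℂ) := by
    have := (Complex.pos_iff.1 hpos).2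
    apply Complex.ext
    · simp
    · simp [← this]
  have hrepos : 0 < (star u₀ ⬝ᵥ u₀).re := (Complex.pos_iff.1 hpos).1
  set r := (star u₀ ⬝ᵥ u₀).re with hr
  set c : ℝ := 1 / Real.sqrt r with hc
  have hcc : c * c * r = 1 := by
    rw [hc]
    have h6 := Real.mul_self_sqrt hrepos.le
    have h7 : Real.sqrt r ≠ 0 := (Real.sqrt_pos.2 hrepos).ne'
    field_simp
    nlinarith
  refine ⟨c • u₀, η i, ?_, ?_, ?_, ?_⟩
  · rw [star_smul, smul_dotProduct, dotProduct_smul, smul_smul, hre]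
    have : star c = c := rfl
    rw [this, Complex.real_smul, ← Complex.ofReal_mul, hcc, Complex.ofReal_one]
  · rw [Matrix.mulVec_smul, Matrix.mulVec_smul, hBu, smul_comm]
  · have hAp := hA.re_dotProduct_pos hu₀ne
    have k1 := h1.re_dotProduct_pos hu₀ne
    have k2 := h2.re_dotProduct_pos hu₀ne
    rw [Matrix.sub_mulVec, hBu, dotProduct_sub, dotProduct_smul] at k1
    rw [Matrix.add_mulVec, hBu, dotProduct_add, dotProduct_smul] at k2
    simp only [map_sub, map_add, RCLike.re_to_complex, Complex.real_smul, Complex.re_ofReal_mul]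
      at k1 k2 hAp
    rw [abs_lt]
    constructor <;> nlinarith
  · have e : B - η i • A = S * Matrix.diagonal (fun j => ((η j - η i : ℝ) : ℂ)) * Sᴴ := by
      have e1 : Matrix.diagonal (fun j => ((η j - η i : ℝ) : ℂ)) =
          Matrix.diagonal (fun j => (η j : ℂ)) - η i • (1 : Matrix ι ι ℂ) := by
        ext j k
        by_cases hjk : j = k
        · subst hjk; simp
        · simp [hjk]
      rw [e1, mul_sub, sub_mul, ← hSB, mul_smul_comm, smul_mul_assoc, mul_one, ← hSA]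
    rw [e]
    apply Matrix.PosSemidef.mul_mul_conjTranspose_same
    rw [Matrix.posSemidef_diagonal_iff]
    intro j
    have := hi j
    exact_mod_cast sub_nonneg.2 this

/-- block CONG -/
theorem cong {n : ℕ} {A B : Matrix (Fin (n + 1)) (Fin (n + 1)) ℂ} (h1 : (A - B).PosDef)
    (h2 : (A + B).PosDef) :
    ∃ (U : Matrix (Fin (n + 1)) (Fin (n + 1)) ℂ) (lam : ℝ), Uᴴ * U = 1 ∧ U * Uᴴ = 1 ∧
      |lam| < 1 ∧
      (Uᴴ * B * U) *ᵥ Pi.single 0 1 = lam • ((Uᴴ * A * U) *ᵥ Pi.single 0 1) ∧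
      (Uᴴ * B * U - lam • (Uᴴ * A * U)).PosSemidef := by
  obtain ⟨u, lam, hu, hBu, hlam, hpsd⟩ := exists_min_eig h1 h2
  obtain ⟨U, hU1, hU2, hU0⟩ := exists_unitary (ι := Fin (n + 1)) (Fintype.card_fin _) u hu
  have hUe : U *ᵥ Pi.single 0 1 = u := by
    ext i
    rw [Matrix.mulVec_single_one]
    exact hU0 i
  refine ⟨U, lam, hU1, hU2, hlam, ?_, ?_⟩
  · rw [← Matrix.mulVec_mulVec, ← Matrix.mulVec_mulVec, ← Matrix.mulVec_mulVec,
      ← Matrix.mulVec_mulVec, hUe, hBu, Matrix.mulVec_smul]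
  · have e : Uᴴ * B * U - lam • (Uᴴ * A * U) = Uᴴ * (B - lam • A) * U := by
      rw [mul_sub, sub_mul, mul_smul_comm, smul_mul_assoc]
    rw [e]
    exact hpsd.conjTranspose_mul_mul_same U

end Pool.Agent.GC34c
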